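import Mathlib

set_option autoImplicit false

namespace Pool.Agent.Results.MP_aca66f_gt.Michael
open Set Filter Topology

/-- Functionally open sets. -/
def FOpen {X : Type} [TopologicalSpace X] (A : Set X) : Prop :=
  ∃ f : C(X, unitInterval), A = f ⁻¹' Ioc 0 1

/-- Functionally closed sets. -/
def FClosed {X : Type} [TopologicalSpace X] (A : Set X) : Prop :=
  ∃ f : C(X, unitInterval), A = f ⁻¹' {0}

/-- Countable intersections of functionally open sets. -/
def FGd {X : Type} [TopologicalSpace X] (A : Set X) : Prop :=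
  ∃ s : ℕ → Set X, (∀ n, FOpen (s n)) ∧ A = ⋂ n, s n

/-- Countable unions of functionally closed sets. -/
def FFs {X : Type} [TopologicalSpace X] (A : Set X) : Prop :=
  ∃ s : ℕ → Set X, (∀ n, FClosed (s n)) ∧ A = ⋃ n, s n

/-- 1-embedded subsets. -/
def OneEmb {X : Type} [TopologicalSpace X] (E : Set X) : Prop :=
  (∀ A : Set E, FFs A → ∃ B : Set X, FFs B ∧ A = Subtype.val ⁻¹' B) ∧
  (∀ A : Set E, FGd A → ∃ B : Set X, FGd B ∧ A = Subtype.val ⁻¹' B)

abbrev C : Type := ℕ → Bool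

def cyl (x : C) (n : ℕ) : Set C := {y | ∀ i < n, y i = x i}

theorem cyl_open (x : C) (n : ℕ) : IsOpen (cyl x n) := by
  have : cyl x n = Set.pi (Iio n) fun i => {x i} := rfl
  rw [this]
  exact isOpen_set_pi (finite_Iio n) fun _ _ => isOpen_discrete _

theorem cyl_nhds {x : C} {U : Set C} (h : U ∈ 𝓝 x) : ∃ n, cyl x n ⊆ U := by
  rw [nhds_pi, Filter.mem_pi] at h
  obtain ⟨I, hI, t, ht, hU⟩ := h
  obtain ⟨N, hN⟩ := hI.bddAbove
  refine ⟨N + 1, fun y hy => hU fun i hi => ?_⟩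
  rw [hy i (Nat.lt_succ_of_le (hN hi))]
  exact mem_of_mem_nhds (ht i)

def Q : Set C := {x | {n | x n = true}.Finite}

theorem Q_ct : Q.Countable := by
  refine ((countable_ofPred_finite_subset (countable_univ (α := ℕ))).preimage_of_injOn
    (f := fun x : C => {n | x n = true}) (fun x _ y _ e => ?_)).mono
      fun x hx => And.intro hx (subset_univ _)
  funext n
  have : x n = true ↔ y n = true := Set.ext_iff.1 e n
  cases hx : x n <;> cases hy : y n <;> simp_all

theorem Q_dense : Dense Q := by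
  intro x
  rw [mem_closure_iff_nhds]
  intro U hU
  obtain ⟨n, hn⟩ := cyl_nhds hU
  refine ⟨fun i => if i < n then x i else false, hn fun i hi => if_pos hi,
    (finite_Iio n).subset fun i hi => ?_⟩
  by_contra h
  have h' : ¬ i < n := h
  simp [h'] at hi

structure M : Type where
  v : C

instance : TopologicalSpace M where
  IsOpen U := ∀ x ∈ U, x.v ∈ Q → ∃ n, ∀ y ∈ cyl x.v n, (⟨y⟩ : M) ∈ U
  isOpen_univ := fun _ _ _ => ⟨0, fun _ _ => trivial⟩
  isOpen_inter := by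
    intro U V hU hV x hx hq
    obtain ⟨n, hn⟩ := hU x hx.1 hq
    obtain ⟨m, hm⟩ := hV x hx.2 hq
    exact ⟨max n m, fun y hy => ⟨hn y fun i hi => hy i (lt_max_of_lt_left hi),
      hm y fun i hi => hy i (lt_max_of_lt_right hi)⟩⟩
  isOpen_sUnion := by
    rintro S hS x ⟨U, hU, hx⟩ hq
    obtain ⟨n, hn⟩ := hS U hU x hx hq
    exact ⟨n, fun y hy => ⟨U, hU, hn y hy⟩⟩

theorem cont_v : Continuous M.v :=
  ⟨fun _ hU x hx _ => cyl_nhds (x := x.v) (hU.mem_nhds hx)⟩

theorem v_inj : Function.Injective M.v := fun ⟨_⟩ ⟨_⟩ e => congrArg M.mk e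

instance : T1Space M := t1Space_of_injective_of_continuous v_inj cont_v

instance : NormalSpace M := by
  refine ⟨fun A B hA hB hAB => ?_⟩
  have key : ∀ {A B : Set M}, IsClosed B → Disjoint A B → ∃ r : M → ℕ, ∀ x ∈ A, x.v ∈ Q →
      ∀ y ∈ cyl x.v (r x), (⟨y⟩ : M) ∉ B := by
    intro A B hB hAB
    have : ∀ x, ∃ n, x ∈ A → x.v ∈ Q → ∀ y ∈ cyl x.v n, (⟨y⟩ : M) ∉ B := fun x => by
      by_cases h : x ∈ A ∧ x.v ∈ Q
      · obtain ⟨n, hn⟩ := hB.isOpen_compl x (disjoint_left.1 hAB h.1) h.2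
        exact ⟨n, fun _ _ => hn⟩
      · exact ⟨0, fun h1 h2 => absurd ⟨h1, h2⟩ h⟩
    choose r hr using this
    exact ⟨r, hr⟩
  have op : ∀ (A : Set M) (r : M → ℕ),
      IsOpen (A ∪ {z | ∃ x ∈ A, x.v ∈ Q ∧ z.v ∈ cyl x.v (r x)}) := by
    rintro A r z (hz | ⟨x, hx, hq, hz⟩) hzq
    · exact ⟨r z, fun y hy => Or.inr ⟨z, hz, hzq, hy⟩⟩
    · exact ⟨r x, fun y hy => Or.inr ⟨x, hx, hq, fun i hi => (hy i hi).trans (hz i hi)⟩⟩
  obtain ⟨r, hr⟩ := key hB hAB
  obtain ⟨s, hs⟩ := key hA hAB.symm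
  refine ⟨_, _, op A r, op B s, subset_union_left, subset_union_left, disjoint_left.2 ?_⟩
  rintro z (hz | ⟨x, hx, hq, hz⟩) (hz' | ⟨y, hy, hq', hz'⟩)
  · exact disjoint_left.1 hAB hz hz'
  · exact hs y hy hq' _ hz' hz
  · exact hr x hx hq _ hz hz'
  · rcases le_total (r x) (s y) with h | h
    · exact hr x hx hq y.v (fun i hi => (hz' i (hi.trans_le h)).symm.trans (hz i hi)) hy
    · exact hs y hy hq' x.v (fun i hi => (hz i (hi.trans_le h)).symm.trans (hz' i hi)) hx

def E : Set M := {x | x.v ∉ Q}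

theorem E_Gd : FGd E := by
  obtain ⟨q, hq⟩ := Q_ct.exists_eq_range Q_dense.nonempty
  let _m : MetricSpace C := TopologicalSpace.metrizableSpaceMetric C
  refine ⟨fun n => {x | x.v ≠ q n}, fun n => ⟨⟨fun x => projIcc 0 1 zero_le_one (dist x.v (q n)),
    continuous_projIcc.comp (cont_v.dist continuous_const)⟩, ?_⟩, ?_⟩
  · ext x
    simp only [mem_ofPred_eq, mem_preimage, ContinuousMap.coe_mk, mem_Ioc, unitInterval.le_one',
      and_true, unitInterval.pos_iff_ne_zero]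
    refine not_congr ?_
    rw [← dist_le_zero]
    exact (projIcc_eq_left zero_lt_one).symm
  · ext x
    simp [E, hq, eq_comm]

instance : DiscreteTopology E := by
  refine discreteTopology_iff_isOpen_singleton.2 fun x => ⟨{x.1}, ?_, ?_⟩
  · rintro _ rfl h; exact absurd h x.2
  · ext y; simp [Subtype.ext_iff]

theorem all_Fs (A : Set E) : FFs A := by
  classical
  refine ⟨fun _ => A, fun _ => ⟨⟨fun x => if x ∈ A then 0 else 1, continuous_of_discreteTopology⟩,
    ?_⟩, (iUnion_const A).symm⟩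
  ext x
  by_cases h : x ∈ A <;> simp [h]

theorem res_cont (f : C(M, unitInterval)) :
    {x : C | ContinuousAt (fun y => f ⟨y⟩) x} ∈ residual C := by
  refine residual_of_dense_Gδ (IsGδ.setOfPred_continuousAt _) (Q_dense.mono fun x hx => ?_)
  refine tendsto_nhds.2 fun V hV hx' => ?_
  obtain ⟨n, hn⟩ := hV.preimage f.continuous ⟨x⟩ hx' hx
  exact mem_of_superset ((cyl_open x n).mem_nhds fun _ _ => rfl) hn

theorem res_E : Qᶜ ∈ residual C := by
  have : Qᶜ = ⋂ q ∈ Q, {q}ᶜ := by rw [← compl_iUnion₂, biUnion_of_singleton]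
  rw [this]
  refine (countable_bInter_mem Q_ct).2 fun q _ =>
    residual_of_dense_open isOpen_compl_singleton fun x => mem_closure_iff_nhds.2 fun U hU => ?_
  obtain ⟨n, hn⟩ := cyl_nhds hU
  refine ⟨fun i => if i < n then x i else !q i, hn fun i hi => if_pos hi, fun e => ?_⟩
  have := congrFun e n
  simp at this

def flip (m : ℕ) (x : C) : C := fun i => if i < m then x i else !x i

theorem flip_flip (m : ℕ) (x : C) : flip m (flip m x) = x := by
  funext i; by_cases h : i < m <;> simp [flip, h]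

theorem flip_cont (m : ℕ) : Continuous (flip m) := by
  refine continuous_pi fun i => ?_
  by_cases h : i < m <;> simp only [flip, h, if_true, if_false]
  · exact continuous_apply i
  · exact (continuous_of_discreteTopology (f := not)).comp (continuous_apply (A := fun _ : ℕ => Bool) i)

def flipH (m : ℕ) : C ≃ₜ C := ⟨⟨flip m, flip m, flip_flip m, flip_flip m⟩, flip_cont m, flip_cont m⟩

def S : Set C := {x | {n | x n = true} ∈ hyperfilter ℕ}

theorem flip_S (m : ℕ) (x : C) : flip m x ∈ S ↔ x ∉ S := by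
  have h : (Ici m) ∈ hyperfilter ℕ := Nat.hyperfilter_le_atTop (Ici_mem_atTop m)
  show _ ∈ hyperfilter ℕ ↔ _ ∉ hyperfilter ℕ
  rw [← Ultrafilter.compl_mem_iff_notMem]
  constructor <;> intro h' <;> refine mem_of_superset (inter_mem h h') fun i ⟨hi, hi'⟩ => ?_ <;>
    have : ¬ i < m := not_lt.2 hi
  · simpa [flip, this] using hi'
  · simpa [flip, this] using hi'

theorem not_emb : ¬ OneEmb E := by
  intro h
  obtain ⟨_, ⟨s, hs, rfl⟩, h1⟩ := h.1 {x | x.1.v ∈ S} (all_Fs _)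
  obtain ⟨_, ⟨t, ht, rfl⟩, h2⟩ := h.1 {x | x.1.v ∉ S} (all_Fs _)
  choose f hf using hs
  choose g hg using ht
  let F : ℕ ⊕ ℕ → C(M, unitInterval) := Sum.elim f g
  let G : Set C := Qᶜ ∩ ⋂ k, {x : C | ContinuousAt (fun y => F k ⟨y⟩) x}
  have hG : G ∈ residual C := inter_mem res_E (countable_iInter_mem.2 fun k => res_cont _)
  have hk : ∃ k, (interior (closure {x | F k ⟨x⟩ = 0})).Nonempty := by
    by_contra hn
    push Not at hn
    have h3 : (⋂ k, (closure {x | F k ⟨x⟩ = 0})ᶜ) ∈ residual C :=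
      countable_iInter_mem.2 fun k => residual_of_dense_open isClosed_closure.isOpen_compl
        (interior_eq_empty_iff_dense_compl.1 (hn k))
    obtain ⟨x, hx, hx'⟩ := (dense_of_mem_residual (inter_mem hG h3)).nonempty
    by_cases hxS : x ∈ S
    · obtain ⟨n, hn⟩ := mem_iUnion.1 (h1.le (show (⟨⟨x⟩, hx.1⟩ : E) ∈ _ from hxS))
      rw [hf] at hn
      exact mem_iInter.1 hx' (Sum.inl n) (subset_closure hn)
    · obtain ⟨n, hn⟩ := mem_iUnion.1 (h2.le (show (⟨⟨x⟩, hx.1⟩ : E) ∈ _ from hxS))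
      rw [hg] at hn
      exact mem_iInter.1 hx' (Sum.inr n) (subset_closure hn)
  obtain ⟨k, x, hx⟩ := hk
  obtain ⟨m, hm⟩ := cyl_nhds (mem_interior_iff_mem_nhds.1 hx)
  have h4 : ∀ y ∈ cyl x m, y ∈ G → F k ⟨y⟩ = 0 := fun y hy hyG => by
    have h7 : ContinuousAt (fun y => F k ⟨y⟩) y := mem_iInter.1 hyG.2 k
    have := h7.continuousWithinAt.mem_closure (t := {0}) (hm hy)
      fun z hz => hz
    rwa [closure_singleton] at this
  obtain ⟨y, hy, hy1, hy2⟩ := (dense_of_mem_residual (inter_mem hG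
    (tendsto_residual_of_isOpenMap (flip_cont m) (flipH m).isOpenMap hG))).inter_open_nonempty _
    (cyl_open x m) ⟨x, fun _ _ => rfl⟩
  have h5 := h4 y hy hy1
  have h6 := h4 (flip m y) (fun i hi => by simp only [flip, hi, if_true]; exact hy i hi) hy2
  rcases k with n | n
  · have a : y ∈ S := h1.ge (show (⟨⟨y⟩, hy1.1⟩ : E) ∈ Subtype.val ⁻¹' ⋃ n, s n from
      mem_iUnion.2 ⟨n, by rw [hf]; exact h5⟩)
    have b : flip m y ∈ S := h1.ge (show (⟨⟨flip m y⟩, hy2.1⟩ : E) ∈ Subtype.val ⁻¹' ⋃ n, s n from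
      mem_iUnion.2 ⟨n, by rw [hf]; exact h6⟩)
    exact (flip_S m y).1 b a
  · have a : y ∉ S := h2.ge (show (⟨⟨y⟩, hy1.1⟩ : E) ∈ Subtype.val ⁻¹' ⋃ n, t n from
      mem_iUnion.2 ⟨n, by rw [hg]; exact h5⟩)
    have b : flip m y ∉ S := h2.ge (show (⟨⟨flip m y⟩, hy2.1⟩ : E) ∈ Subtype.val ⁻¹' ⋃ n, t n from
      mem_iUnion.2 ⟨n, by rw [hg]; exact h6⟩)
    exact b ((flip_S m y).2 a)

theorem result : ∃ (X : Type) (_ : TopologicalSpace X), T1Space X ∧ NormalSpace X ∧
    ∃ E : Set X, FGd E ∧ ¬ OneEmb E :=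
  ⟨M, inferInstance, inferInstance, inferInstance, E, E_Gd, not_emb⟩

end Pool.Agent.Results.MP_aca66f_gt.Michael
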